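import Pool.Agent.Q266.HLC.Stm

/-!
JOB MENGER and JOB STRANDS of the project MP_a1dcbe_gt.
-/

set_option autoImplicit false

namespace Pool.Agent.Q176.HLC

open Set Topology
open Pool.Agent.Q266.HLC

section

variable {Y : Type} [MetricSpace Y] [LocallyConnectedSpace Y]

/-- small connected open neighbourhoods -/
theorem small {A : Set Y} (hA : IsOpen A) {x : Y} (hx : x ∈ A) :
    ∃ N : Set Y, IsOpen N ∧ IsPreconnected N ∧ x ∈ N ∧ closure N ⊆ A := by
  obtain ⟨r, hr, hrA⟩ := Metric.isOpen_iff.1 hA x hx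
  have hr2 : 0 < r / 2 := by positivity
  refine ⟨connectedComponentIn (Metric.ball x (r / 2)) x, Metric.isOpen_ball.connectedComponentIn,
    isPreconnected_connectedComponentIn, mem_connectedComponentIn (Metric.mem_ball_self hr2), ?_⟩
  refine (closure_mono (connectedComponentIn_subset _ _)).trans ?_
  refine Metric.closure_ball_subset_closedBall.trans ?_
  exact (Metric.closedBall_subset_ball (by linarith)).trans hrA

theorem small' {A : Set Y} (hA : IsOpen A) {x : Y} (hx : x ∈ A) :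
    ∃ N : Set Y, IsOpen N ∧ IsPreconnected N ∧ x ∈ N ∧ N ⊆ A := by
  obtain ⟨N, h1, h2, h3, h4⟩ := small hA hx
  exact ⟨N, h1, h2, h3, subset_closure.trans h4⟩

/-- no isolated points -/
theorem exists_ne {O V : Set Y} (hO : IsOpen O) (hc : IsPreconnected O) {x b : Y} (hx : x ∈ O) (hb : b ∈ O)
    (hbx : b ≠ x) (hV : IsOpen V) (hVn : (V ∩ O).Nonempty) : ∃ v ∈ V ∩ O, v ≠ x := by
  by_contra hcon
  push Not at hcon
  obtain ⟨v, hv⟩ := hVn
  have hvx : v = x := hcon v hv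
  have e : V ∩ O = {x} := by
    apply Subset.antisymm
    · intro w hw
      exact hcon w hw
    · intro w hw
      rw [mem_singleton_iff] at hw
      rw [hw, ← hvx]
      exact hv
  have hop : IsOpen ({x} : Set Y) := e ▸ hV.inter hO
  have hop2 : IsOpen (({x} : Set Y)ᶜ) := isClosed_singleton.isOpen_compl
  obtain ⟨w, _, hw1, hw2⟩ := hc {x} ({x}ᶜ) hop hop2 (fun w _ => by
    by_cases h : w = x
    · exact Or.inl h
    · exact Or.inr h) ⟨x, hx, rfl⟩ ⟨b, hb, hbx⟩
  exact hw2 hw1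

/-- D1: a connected piece which avoids a neighbourhood of a point -/
theorem avoid (hN : NLS Y) {O U : Set Y} {x b : Y} (hO : IsOpen O) (hc : IsPreconnected O) (hU : IsOpen U)
    (hOU : (O ∩ U).Nonempty) (hx : x ∈ O) (hb : b ∈ O) (hbx : b ≠ x) :
    ∃ L : Set Y, IsOpen L ∧ IsPreconnected L ∧ b ∈ L ∧ L ⊆ O ∧ (L ∩ U).Nonempty ∧ x ∉ closure L := by
  set V : Set Y := {v | ∃ L : Set Y, IsOpen L ∧ IsPreconnected L ∧ b ∈ L ∧ v ∈ L ∧ L ⊆ O ∧ x ∉ closure L} with hV
  have hOx : IsOpen (O \ {x}) := hO.sdiff isClosed_singleton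
  have hVo : IsOpen V := by
    rw [isOpen_iff_mem_nhds]
    rintro v ⟨L, h1, h2, h3, h4, h5, h6⟩
    exact Filter.mem_of_superset (h1.mem_nhds h4) fun w hw => ⟨L, h1, h2, h3, hw, h5, h6⟩
  have hsub : O \ {x} ⊆ V := by
    refine (hN O hO hc x).subset_of_closure_inter_subset hVo ?_ ?_
    · obtain ⟨N, h1, h2, h3, h4⟩ := small hOx (show b ∈ O \ {x} from ⟨hb, hbx⟩)
      exact ⟨b, ⟨hb, hbx⟩, N, h1, h2, h3, h3, (subset_closure.trans h4).trans diff_subset,
        fun h => (h4 h).2 rfl⟩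
    · rintro z ⟨hz, hzO⟩
      obtain ⟨N, h1, h2, h3, h4⟩ := small hOx hzO
      obtain ⟨v, hvN, L, l1, l2, l3, l4, l5, l6⟩ := mem_closure_iff.1 hz N h1 h3
      refine ⟨L ∪ N, l1.union h1, l2.union v l4 hvN h2, Or.inl l3, Or.inr h3,
        union_subset l5 ((subset_closure.trans h4).trans diff_subset), ?_⟩
      rw [closure_union]
      rintro (h | h)
      · exact l6 h
      · exact (h4 h).2 rfl
  obtain ⟨v, ⟨hvU, hvO⟩, hvx⟩ := exists_ne hO hc hx hb hbx hU (by rwa [inter_comm])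
  obtain ⟨L, h1, h2, h3, h4, h5, h6⟩ := hsub ⟨hvO, hvx⟩
  exact ⟨L, h1, h2, h3, h5, ⟨v, h4, hvU⟩, h6⟩

/-- D2: exit from a set -/
theorem exit {T W W' U : Set Y} (hT : IsOpen T) (hc : IsPreconnected T) (hTW : (T ∩ W).Nonempty)
    (hTU : (T ∩ U).Nonempty) (hW' : IsOpen W') (hWW : closure W ⊆ W') (hWU : Disjoint W' U) :
    ∃ C Φ : Set Y, IsOpen C ∧ IsPreconnected C ∧ C ⊆ T ∧ C ⊆ W' ∧ (C ∩ W).Nonempty ∧
      IsOpen Φ ∧ IsPreconnected Φ ∧ closure Φ ⊆ T ∧ Disjoint Φ W ∧ (C ∩ Φ).Nonempty ∧ (Φ ∩ U).Nonempty := by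
  set A1 : Set Y := {t | ∃ C : Set Y, IsOpen C ∧ IsPreconnected C ∧ C ⊆ T ∧ C ⊆ W' ∧ (C ∩ W).Nonempty ∧ t ∈ C}
    with hA1
  set A2 : Set Y := {t | ∃ C Φ : Set Y, IsOpen C ∧ IsPreconnected C ∧ C ⊆ T ∧ C ⊆ W' ∧ (C ∩ W).Nonempty ∧
      IsOpen Φ ∧ IsPreconnected Φ ∧ closure Φ ⊆ T ∧ Disjoint Φ W ∧ (C ∩ Φ).Nonempty ∧ t ∈ Φ} with hA2
  have ho1 : IsOpen A1 := by
    rw [isOpen_iff_mem_nhds]
    rintro v ⟨C, h1, h2, h3, h4, h5, h6⟩
    exact Filter.mem_of_superset (h1.mem_nhds h6) fun w hw => ⟨C, h1, h2, h3, h4, h5, hw⟩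
  have ho2 : IsOpen A2 := by
    rw [isOpen_iff_mem_nhds]
    rintro v ⟨C, Φ, h1, h2, h3, h4, h5, p1, p2, p3, p4, p5, h6⟩
    exact Filter.mem_of_superset (p1.mem_nhds h6) fun w hw => ⟨C, Φ, h1, h2, h3, h4, h5, p1, p2, p3, p4, p5, hw⟩
  have key : ∀ z ∈ T, z ∈ closure W → z ∈ A1 := by
    intro z hzT hzW
    obtain ⟨C, h1, h2, h3, h4⟩ := small' (hT.inter hW') (show z ∈ T ∩ W' from ⟨hzT, hWW hzW⟩)
    exact ⟨C, h1, h2, h4.trans inter_subset_left, h4.trans inter_subset_right, mem_closure_iff.1 hzW C h1 h3, h3⟩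
  have hsub : T ⊆ A1 ∪ A2 := by
    refine hc.subset_of_closure_inter_subset (ho1.union ho2) ?_ ?_
    · obtain ⟨w, hwT, hwW⟩ := hTW
      exact ⟨w, hwT, Or.inl (key w hwT (subset_closure hwW))⟩
    · rintro z ⟨hz, hzT⟩
      by_cases hzW : z ∈ closure W
      · exact Or.inl (key z hzT hzW)
      · obtain ⟨N, h1, h2, h3, h4⟩ := small (hT.sdiff (isClosed_closure (s := W)))
          (show z ∈ T \ closure W from ⟨hzT, hzW⟩)
        have hNW : Disjoint N W := disjoint_left.2 fun w hw hwW => (h4 (subset_closure hw)).2 (subset_closure hwW)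
        obtain ⟨a, haN, ha⟩ := mem_closure_iff.1 hz N h1 h3
        rcases ha with ⟨C, c1, c2, c3, c4, c5, c6⟩ | ⟨C, Φ, c1, c2, c3, c4, c5, p1, p2, p3, p4, p5, p6⟩
        · exact Or.inr ⟨C, N, c1, c2, c3, c4, c5, h1, h2, h4.trans diff_subset, hNW, ⟨a, c6, haN⟩, h3⟩
        · refine Or.inr ⟨C, Φ ∪ N, c1, c2, c3, c4, c5, p1.union h1, p2.union a p6 haN h2, ?_, ?_, ?_, Or.inr h3⟩
          · rw [closure_union]
            exact union_subset p3 (h4.trans diff_subset)
          · exact disjoint_union_left.2 ⟨p4, hNW⟩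
          · exact p5.mono (inter_subset_inter_right _ subset_union_left)
  obtain ⟨t, htT, htU⟩ := hTU
  rcases hsub htT with ⟨C, h1, h2, h3, h4, h5, h6⟩ | ⟨C, Φ, h1, h2, h3, h4, h5, p1, p2, p3, p4, p5, h6⟩
  · exact absurd htU (disjoint_left.1 hWU (h4 h6))
  · exact ⟨C, Φ, h1, h2, h3, h4, h5, p1, p2, p3, p4, p5, ⟨t, h6, htU⟩⟩

/-- D3: the first hit of one of two sets -/
theorem hit {L F1 F2 : Set Y} {b : Y} (hL : IsOpen L) (hc : IsPreconnected L) (hb : b ∈ L)
    (hF : Disjoint (closure F1) (closure F2)) (hmeet : (L ∩ (F1 ∪ F2)).Nonempty) :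
    ∃ J : Set Y, IsOpen J ∧ IsPreconnected J ∧ b ∈ J ∧ J ⊆ L ∧
      (((J ∩ F1).Nonempty ∧ Disjoint J F2) ∨ ((J ∩ F2).Nonempty ∧ Disjoint J F1)) := by
  by_contra hcon
  have hno : ∀ J : Set Y, IsOpen J → IsPreconnected J → b ∈ J → J ⊆ L → (Disjoint J F1 ∨ Disjoint J F2) →
      Disjoint J F1 ∧ Disjoint J F2 := by
    intro J h1 h2 h3 h4 h5
    by_contra h6
    apply hcon
    refine ⟨J, h1, h2, h3, h4, ?_⟩
    rcases h5 with h5 | h5
    · right
      refine ⟨?_, h5⟩
      rw [← not_disjoint_iff_nonempty_inter]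
      exact fun h => h6 ⟨h5, h⟩
    · left
      refine ⟨?_, h5⟩
      rw [← not_disjoint_iff_nonempty_inter]
      exact fun h => h6 ⟨h, h5⟩
  have hsm : ∀ z ∈ L, ∃ N : Set Y, IsOpen N ∧ IsPreconnected N ∧ z ∈ N ∧ N ⊆ L ∧ (Disjoint N F1 ∨ Disjoint N F2) := by
    intro z hz
    by_cases hz1 : z ∈ closure F1
    · have hz2 : z ∉ closure F2 := disjoint_left.1 hF hz1
      obtain ⟨N, h1, h2, h3, h4⟩ := small' (hL.sdiff (isClosed_closure (s := F2))) (show z ∈ L \ closure F2 from ⟨hz, hz2⟩)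
      exact ⟨N, h1, h2, h3, h4.trans diff_subset, Or.inr (disjoint_left.2 fun w hw hw2 => (h4 hw).2 (subset_closure hw2))⟩
    · obtain ⟨N, h1, h2, h3, h4⟩ := small' (hL.sdiff (isClosed_closure (s := F1))) (show z ∈ L \ closure F1 from ⟨hz, hz1⟩)
      exact ⟨N, h1, h2, h3, h4.trans diff_subset, Or.inl (disjoint_left.2 fun w hw hw2 => (h4 hw).2 (subset_closure hw2))⟩
  set G : Set Y := {t | ∃ J : Set Y, IsOpen J ∧ IsPreconnected J ∧ b ∈ J ∧ J ⊆ L ∧ Disjoint J F1 ∧ Disjoint J F2 ∧ t ∈ J}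
    with hG
  have hGo : IsOpen G := by
    rw [isOpen_iff_mem_nhds]
    rintro v ⟨J, h1, h2, h3, h4, h5, h6, h7⟩
    exact Filter.mem_of_superset (h1.mem_nhds h7) fun w hw => ⟨J, h1, h2, h3, h4, h5, h6, hw⟩
  have hsub : L ⊆ G := by
    refine hc.subset_of_closure_inter_subset hGo ?_ ?_
    · obtain ⟨N, h1, h2, h3, h4, h5⟩ := hsm b hb
      obtain ⟨h6, h7⟩ := hno N h1 h2 h3 h4 h5
      exact ⟨b, hb, N, h1, h2, h3, h4, h6, h7, h3⟩
    · rintro z ⟨hz, hzL⟩
      obtain ⟨N, h1, h2, h3, h4, h5⟩ := hsm z hzL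
      obtain ⟨g, hgN, J, j1, j2, j3, j4, j5, j6, j7⟩ := mem_closure_iff.1 hz N h1 h3
      obtain ⟨h6, h7⟩ := hno (J ∪ N) (j1.union h1) (j2.union g j7 hgN h2) (Or.inl j3) (union_subset j4 h4) (by
        rcases h5 with h5 | h5
        · exact Or.inl (disjoint_union_left.2 ⟨j5, h5⟩)
        · exact Or.inr (disjoint_union_left.2 ⟨j6, h5⟩))
      exact ⟨J ∪ N, j1.union h1, j2.union g j7 hgN h2, Or.inl j3, union_subset j4 h4, h6, h7, Or.inr h3⟩
  obtain ⟨w, hwL, hw⟩ := hmeet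
  obtain ⟨J, _, _, _, _, j5, j6, j7⟩ := hsub hwL
  rcases hw with hw | hw
  · exact disjoint_left.1 j5 j7 hw
  · exact disjoint_left.1 j6 j7 hw

/-- the union of three sets in a chain -/
theorem chain3 {A B C : Set Y} (hA : IsPreconnected A) (hB : IsPreconnected B) (hC : IsPreconnected C)
    (hAB : (A ∩ B).Nonempty) (hBC : (B ∩ C).Nonempty) : IsPreconnected (A ∪ B ∪ C) := by
  obtain ⟨x, hxA, hxB⟩ := hAB
  obtain ⟨y, hyB, hyC⟩ := hBC
  exact (hA.union x hxA hxB hB).union y (Or.inr hyB) hyC hC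

end

theorem menger : S_menger := by
  intro Y _ _ hN O U q b hO hc hU hOU hq hb hqb
  set G : Set Y := {x | ∃ Tx Tb : Set Y, IsOpen Tx ∧ IsPreconnected Tx ∧ IsOpen Tb ∧ IsPreconnected Tb ∧
        Tx ⊆ O ∧ Tb ⊆ O ∧ Disjoint Tx Tb ∧ x ∈ Tx ∧ b ∈ Tb ∧ (Tx ∩ U).Nonempty ∧ (Tb ∩ U).Nonempty} with hG
  have hOb : IsOpen (O \ {b}) := hO.sdiff isClosed_singleton
  have hGo : IsOpen G := by
    rw [isOpen_iff_mem_nhds]
    rintro v ⟨Tx, Tb, h1, h2, h3, h4, h5, h6, h7, h8, h9, h10, h11⟩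
    exact Filter.mem_of_superset (h1.mem_nhds h8) fun w hw => ⟨Tx, Tb, h1, h2, h3, h4, h5, h6, h7, hw, h9, h10, h11⟩
  have hsub : O \ {b} ⊆ G := by
    refine (hN O hO hc b).subset_of_closure_inter_subset hGo ?_ ?_
    · obtain ⟨x, ⟨hxU, hxO⟩, hxb⟩ := exists_ne hO hc hb hq hqb hU (by rwa [inter_comm])
      obtain ⟨L, l1, l2, l3, l4, l5, l6⟩ := avoid hN hO hc hU hOU hxO hb (Ne.symm hxb)
      obtain ⟨N, h1, h2, h3, h4⟩ := small' ((hU.inter hO).sdiff (isClosed_closure (s := L)))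
        (show x ∈ (U ∩ O) \ closure L from ⟨⟨hxU, hxO⟩, l6⟩)
      exact ⟨x, ⟨hxO, hxb⟩, N, L, h1, h2, l1, l2, fun w hw => (h4 hw).1.2, l4,
        disjoint_left.2 fun w hw hwL => (h4 hw).2 (subset_closure hwL), h3, l3, ⟨x, h3, hxU⟩, l5⟩
    · rintro z ⟨hz, hzO, hzb⟩
      have hzb' : b ≠ z := fun h => hzb h.symm
      obtain ⟨L, l1, l2, l3, l4, l5, l6⟩ := avoid hN hO hc hU hOU hzO hb hzb'
      by_cases hzU : z ∈ closure U
      · obtain ⟨N, h1, h2, h3, h4⟩ := small' (hO.sdiff (isClosed_closure (s := L)))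
          (show z ∈ O \ closure L from ⟨hzO, l6⟩)
        exact ⟨N, L, h1, h2, l1, l2, h4.trans diff_subset, l4,
          disjoint_left.2 fun w hw hwL => (h4 hw).2 (subset_closure hwL), h3, l3, mem_closure_iff.1 hzU N h1 h3, l5⟩
      · set W' : Set Y := (O \ closure L) \ closure U with hW'
        have hW'o : IsOpen W' := (hO.sdiff isClosed_closure).sdiff isClosed_closure
        have hW'O : W' ⊆ O := diff_subset.trans diff_subset
        have hW'L : ∀ w ∈ W', w ∉ L := fun w hw h => hw.1.2 (subset_closure h)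
        have hW'U : Disjoint W' U := disjoint_left.2 fun w hw h => hw.2 (subset_closure h)
        obtain ⟨W, w1, w2, w3, w4⟩ := small hW'o (show z ∈ W' from ⟨⟨hzO, l6⟩, hzU⟩)
        have hWW' : W ⊆ W' := subset_closure.trans w4
        obtain ⟨x, hxW, Tx, Tb, h1, h2, h3, h4, h5, h6, h7, h8, h9, h10, h11⟩ := mem_closure_iff.1 hz W w1 w3
        by_cases hTbW : (Tb ∩ W).Nonempty
        · obtain ⟨Cb, Pb, cb1, cb2, cb3, cb4, cb5, pb1, pb2, pb3, pb4, pb5, pb6⟩ :=
            exit h3 h4 hTbW h11 hW'o w4 hW'U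
          obtain ⟨Cx, Px, cx1, cx2, cx3, cx4, cx5, px1, px2, px3, px4, px5, px6⟩ :=
            exit h1 h2 ⟨x, h8, hxW⟩ h10 hW'o w4 hW'U
          have hWCx : (W ∩ Cx).Nonempty := by rwa [inter_comm]
          have hWCb : (W ∩ Cb).Nonempty := by rwa [inter_comm]
          have hPx : Px ⊆ Tx := subset_closure.trans px3
          have hPb : Pb ⊆ Tb := subset_closure.trans pb3
          by_cases hLP : (L ∩ (Px ∪ Pb)).Nonempty
          · obtain ⟨J, j1, j2, j3, j4, j5⟩ := hit l1 l2 l3 (h7.mono px3 pb3) hLP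
            rcases j5 with ⟨j5, j6⟩ | ⟨j5, j6⟩
            · -- J meets Px only
              obtain ⟨y, hyJ, hyP⟩ := j5
              refine ⟨W ∪ Cb ∪ Pb, J ∪ Px, (w1.union cb1).union pb1, chain3 w2 cb2 pb2 hWCb pb5, j1.union px1,
                j2.union y hyJ hyP px2, union_subset (union_subset (hWW'.trans hW'O) (cb3.trans h6)) (hPb.trans h6),
                union_subset (j4.trans l4) (hPx.trans h5), ?_, Or.inl (Or.inl w3), Or.inl j3,
                pb6.mono (inter_subset_inter_left _ subset_union_right),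
                px6.mono (inter_subset_inter_left _ subset_union_right)⟩
              refine disjoint_left.2 fun w hw hw' => ?_
              rcases hw with (hw | hw) | hw
              · rcases hw' with hw' | hw'
                · exact hW'L w (hWW' hw) (j4 hw')
                · exact disjoint_left.1 px4 hw' hw
              · rcases hw' with hw' | hw'
                · exact hW'L w (cb4 hw) (j4 hw')
                · exact disjoint_left.1 h7 (hPx hw') (cb3 hw)
              · rcases hw' with hw' | hw'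
                · exact disjoint_left.1 j6 hw' hw
                · exact disjoint_left.1 h7 (hPx hw') (hPb hw)
            · -- J meets Pb only
              obtain ⟨y, hyJ, hyP⟩ := j5
              refine ⟨W ∪ Cx ∪ Px, J ∪ Pb, (w1.union cx1).union px1, chain3 w2 cx2 px2 hWCx px5, j1.union pb1,
                j2.union y hyJ hyP pb2, union_subset (union_subset (hWW'.trans hW'O) (cx3.trans h5)) (hPx.trans h5),
                union_subset (j4.trans l4) (hPb.trans h6), ?_, Or.inl (Or.inl w3), Or.inl j3,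
                px6.mono (inter_subset_inter_left _ subset_union_right),
                pb6.mono (inter_subset_inter_left _ subset_union_right)⟩
              refine disjoint_left.2 fun w hw hw' => ?_
              rcases hw with (hw | hw) | hw
              · rcases hw' with hw' | hw'
                · exact hW'L w (hWW' hw) (j4 hw')
                · exact disjoint_left.1 pb4 hw' hw
              · rcases hw' with hw' | hw'
                · exact hW'L w (cx4 hw) (j4 hw')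
                · exact disjoint_left.1 h7 (cx3 hw) (hPb hw')
              · rcases hw' with hw' | hw'
                · exact disjoint_left.1 j6 hw' hw
                · exact disjoint_left.1 h7 (hPx hw) (hPb hw')
          · rw [not_nonempty_iff_eq_empty] at hLP
            have hLP' : ∀ w ∈ L, w ∉ Px := fun w hw hwP => by
              have : w ∈ L ∩ (Px ∪ Pb) := ⟨hw, Or.inl hwP⟩
              rw [hLP] at this
              exact this
            refine ⟨W ∪ Cx ∪ Px, L, (w1.union cx1).union px1, chain3 w2 cx2 px2 hWCx px5, l1, l2,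
                union_subset (union_subset (hWW'.trans hW'O) (cx3.trans h5)) (hPx.trans h5), l4, ?_,
                Or.inl (Or.inl w3), l3, px6.mono (inter_subset_inter_left _ subset_union_right), l5⟩
            refine disjoint_left.2 fun w hw hwL => ?_
            rcases hw with (hw | hw) | hw
            · exact hW'L w (hWW' hw) hwL
            · exact hW'L w (cx4 hw) hwL
            · exact hLP' w hwL hw
        · rw [not_nonempty_iff_eq_empty] at hTbW
          refine ⟨Tx ∪ W, Tb, h1.union w1, h2.union x h8 hxW w2, h3, h4, union_subset h5 (hWW'.trans hW'O), h6, ?_,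
            Or.inr w3, h9, h10.mono (inter_subset_inter_left _ subset_union_left), h11⟩
          refine disjoint_union_left.2 ⟨h7, disjoint_left.2 fun w hw hwT => ?_⟩
          have : w ∈ Tb ∩ W := ⟨hwT, hw⟩
          rw [hTbW] at this
          exact this
  exact hsub ⟨hq, hqb⟩

/-- the data of the recursion -/
structure Stage (Y : Type) [TopologicalSpace Y] (q : Y) (U : Set Y) where
  O : Set Y
  op : IsOpen O
  pre : IsPreconnected O
  mem : q ∈ O
  meet : (O ∩ U).Nonempty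

theorem strands : S_strands := by
  classical
  intro hM Y _ _ _ _ hHL hN
  obtain ⟨q, p, hqp⟩ := exists_pair_ne Y
  obtain ⟨U, u1, u2, u3, u4⟩ := small (isClosed_singleton (x := q)).isOpen_compl (show p ∈ ({q} : Set Y)ᶜ from fun h => hqp h.symm)
  have hqU : q ∉ closure U := fun h => u4 h rfl
  -- one step of the recursion
  have step : ∀ (s : Stage Y q U) (ε : ℝ), 0 < ε → ∃ (s' : Stage Y q U) (K : Set Y) (b : Y), s'.O ⊆ s.O ∧ IsOpen K ∧
      IsPreconnected K ∧ K ⊆ s.O ∧ Disjoint s'.O K ∧ (K ∩ U).Nonempty ∧ b ∈ K ∧ dist b q < ε := by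
    intro s ε hε
    obtain ⟨b, hb, hbq⟩ := exists_ne isOpen_univ isPreconnected_univ (mem_univ q) (mem_univ p) hqp.symm
      (s.op.inter (Metric.isOpen_ball (x := q) (ε := ε))) ⟨q, ⟨s.mem, Metric.mem_ball_self hε⟩, mem_univ q⟩
    obtain ⟨Tq, Tb, h1, h2, h3, h4, h5, h6, h7, h8, h9, h10, h11⟩ :=
      hM Y hN s.O U q b s.op s.pre u1 s.meet s.mem hb.1.1 (Ne.symm hbq)
    exact ⟨⟨Tq, h1, h2, h8, h10⟩, Tb, b, h5, h3, h4, h6, h7, h11, h9, hb.1.2⟩
  choose nx Kf bf n1 n2 n3 n4 n5 n6 n7 n8 using step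
  have hpos : ∀ n : ℕ, (0 : ℝ) < 1 / ((n : ℝ) + 1) := fun n => by positivity
  let s0 : Stage Y q U := ⟨univ, isOpen_univ, isPreconnected_univ, mem_univ q, ⟨p, mem_univ p, u3⟩⟩
  let S : ℕ → Stage Y q U := fun n => Nat.rec s0 (fun n s => nx s (1 / ((n : ℝ) + 1)) (hpos n)) n
  have hS : ∀ n, S (n + 1) = nx (S n) (1 / ((n : ℝ) + 1)) (hpos n) := fun n => rfl
  let K : ℕ → Set Y := fun n => Kf (S n) (1 / ((n : ℝ) + 1)) (hpos n)
  let b : ℕ → Y := fun n => bf (S n) (1 / ((n : ℝ) + 1)) (hpos n)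
  have hO : ∀ n, (S (n + 1)).O ⊆ (S n).O := fun n => n1 _ _ _
  have hK1 : ∀ n, IsOpen (K n) := fun n => n2 _ _ _
  have hK2 : ∀ n, IsPreconnected (K n) := fun n => n3 _ _ _
  have hK3 : ∀ n, K n ⊆ (S n).O := fun n => n4 _ _ _
  have hK4 : ∀ n, Disjoint (S (n + 1)).O (K n) := fun n => n5 _ _ _
  have hK5 : ∀ n, (K n ∩ U).Nonempty := fun n => n6 _ _ _
  have hb1 : ∀ n, b n ∈ K n := fun n => n7 _ _ _
  have hb2 : ∀ n, dist (b n) q < 1 / ((n : ℝ) + 1) := fun n => n8 _ _ _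
  have hmono : ∀ m n, m ≤ n → (S n).O ⊆ (S m).O := by
    intro m n hmn
    induction n, hmn using Nat.le_induction with
    | base => exact Subset.rfl
    | succ n _ ih => exact (hO n).trans ih
  have hdis : ∀ m n, m < n → Disjoint (K n) (K m) := fun m n hmn =>
    (hK4 m).mono_left ((hK3 n).trans (hmono (m + 1) n hmn))
  have hdis' : ∀ m n, m ≠ n → Disjoint (K n) (K m) := by
    intro m n hmn
    rcases lt_or_gt_of_ne hmn with h | h
    · exact hdis m n h
    · exact (hdis n m h).symm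
  have hqK : ∀ n, q ∉ closure (K n) := by
    intro n h
    obtain ⟨w, hw1, hw2⟩ := mem_closure_iff.1 h _ (S (n + 1)).op (S (n + 1)).mem
    exact disjoint_left.1 (hK4 n) hw1 hw2
  have hlim : Filter.Tendsto b Filter.atTop (𝓝 q) := by
    rw [tendsto_iff_dist_tendsto_zero]
    refine squeeze_zero (fun n => dist_nonneg) (fun n => (hb2 n).le) ?_
    exact tendsto_one_div_add_atTop_nhds_zero_nat
  -- the connected set
  have hA : IsPreconnected (U ∪ ⋃ n, K n) := by
    have h : U ∪ ⋃ n, K n = ⋃ n, (U ∪ K n) := by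
      rw [← union_iUnion]
    rw [h]
    refine isPreconnected_iUnion ⟨p, mem_iInter.2 fun n => Or.inl u3⟩ fun n => ?_
    obtain ⟨w, hw1, hw2⟩ := hK5 n
    exact u2.union w hw2 hw1 (hK2 n)
  have hqA : q ∈ closure (U ∪ ⋃ n, K n) :=
    mem_closure_of_tendsto hlim (Filter.Eventually.of_forall fun n => Or.inr (mem_iUnion.2 ⟨n, hb1 n⟩))
  have hSc : IsPreconnected (insert q (U ∪ ⋃ n, K n)) :=
    hA.subset_closure (subset_insert _ _) (insert_subset hqA subset_closure)
  obtain ⟨T, t1, t2, t3, t4⟩ := hHL _ hSc q (mem_insert _ _) (closure U)ᶜ (isClosed_closure.isOpen_compl.mem_nhds hqU)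
  -- T contains some b n
  have hev : ∀ᶠ n in Filter.atTop, b n ∈ T := by
    have h1 : Filter.Tendsto b Filter.atTop (𝓝[insert q (U ∪ ⋃ n, K n)] q) :=
      tendsto_nhdsWithin_iff.2 ⟨hlim, Filter.Eventually.of_forall fun n => Or.inr (Or.inr (mem_iUnion.2 ⟨n, hb1 n⟩))⟩
    exact h1 t4
  obtain ⟨n, hn⟩ := hev.exists
  have hcov : T ⊆ K n ∪ (closure (K n))ᶜ := by
    intro w hw
    obtain ⟨hw1, hw2⟩ := t1 hw
    rcases hw1 with rfl | hw1 | hw1
    · exact Or.inr (hqK n)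
    · exact absurd (subset_closure hw1) hw2
    · obtain ⟨m, hm⟩ := mem_iUnion.1 hw1
      by_cases hmn : m = n
      · subst hmn
        exact Or.inl hm
      · right
        intro h
        obtain ⟨y, hy1, hy2⟩ := mem_closure_iff.1 h (K m) (hK1 m) hm
        exact disjoint_left.1 (hdis' m n hmn) hy2 hy1
  obtain ⟨w, _, hw1, hw2⟩ := t2 (K n) (closure (K n))ᶜ (hK1 n) isClosed_closure.isOpen_compl hcov ⟨b n, hn, hb1 n⟩
    ⟨q, t3, hqK n⟩
  exact hw2 (subset_closure hw1)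

end Pool.Agent.Q176.HLC
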